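import Pool.Agent.Helper10.Ram5.Lib

set_option autoImplicit false

/-! Torus averages on `ℍ / Hur`. -/

namespace Pool.Agent.Helper79.Ram5M

open Pool.Agent.Helper10.Ram5
open MeasureTheory Set
open scoped Quaternion Pointwise

/-- Lebesgue measure on the unit cube -/
noncomputable abbrev mu : Measure (Fin 4 → ℝ) := volume.restrict (Icc (0 : Fin 4 → ℝ) 1)

instance : IsProbabilityMeasure mu := ⟨by
  rw [Measure.restrict_apply_univ, Real.volume_Icc_pi]; simp⟩

theorem shift (H : (Fin 4 → ℝ) → ENNReal)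
    (hp : ∀ (n : Fin 4 → ℤ) x, H (x + fun i => (n i : ℝ)) = H x) (c : Fin 4 → ℝ) :
    ∫⁻ p, H (p + c) ∂mu = ∫⁻ p, H p ∂mu := by
  set b := Pi.basisFun ℝ (Fin 4) with hb
  set D : Set (Fin 4 → ℝ) := ZSpan.fundamentalDomain b with hD
  have hcount : Countable (Submodule.span ℤ (Set.range b)).toAddSubgroup :=
    inferInstanceAs (Countable (Submodule.span ℤ (Set.range b)))
  have hfd : IsAddFundamentalDomain (Submodule.span ℤ (Set.range b)).toAddSubgroup D volume :=
    ZSpan.isAddFundamentalDomain' b volume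
  have hDI : D =ᵐ[volume] Icc (0 : Fin 4 → ℝ) 1 := by
    rw [hD, hb, ZSpan.fundamentalDomain_pi_basisFun]
    exact Measure.univ_pi_Ico_ae_eq_Icc
  have hinv : ∀ (g : (Submodule.span ℤ (Set.range b)).toAddSubgroup) (x : Fin 4 → ℝ),
      H (g +ᵥ x) = H x := by
    intro g x
    have hg : ∃ n : Fin 4 → ℤ, (g : Fin 4 → ℝ) = fun i => (n i : ℝ) := by
      have h1 : ∀ i, ∃ m : ℤ, (m : ℝ) = b.repr (g : Fin 4 → ℝ) i :=
        (b.mem_span_iff_repr_mem ℤ _).1 g.2
      choose n hn using h1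
      exact ⟨n, funext fun i => by rw [hn i]; simp [hb]⟩
    obtain ⟨n, hn⟩ := hg
    have : g +ᵥ x = x + fun i => (n i : ℝ) := by
      rw [← hn, add_comm]; rfl
    rw [this, hp]
  have h2 : ∫⁻ p, H (p + c) ∂mu = ∫⁻ p in D, H (p + c) := (setLIntegral_congr hDI).symm
  have h3 : ∫⁻ p, H p ∂mu = ∫⁻ p in D, H p := (setLIntegral_congr hDI).symm
  rw [h2, h3]
  have hmp : MeasurePreserving (fun x : Fin 4 → ℝ => x + c) volume volume :=
    measurePreserving_add_right volume c
  have he : MeasurableEmbedding (fun x : Fin 4 → ℝ => x + c) :=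
    (MeasurableEquiv.addRight c).measurableEmbedding
  have h5 := hmp.setLIntegral_comp_preimage_emb he H ((fun x : Fin 4 → ℝ => x + (-c)) ⁻¹' D)
  have h6 : (fun x : Fin 4 → ℝ => x + c) ⁻¹' ((fun x : Fin 4 → ℝ => x + (-c)) ⁻¹' D) = D := by
    ext x; simp
  rw [h6] at h5
  rw [h5]
  have h7 : IsAddFundamentalDomain (Submodule.span ℤ (Set.range b)).toAddSubgroup
      ((fun x : Fin 4 → ℝ => x + (-c)) ⁻¹' D) volume := by
    have h8 := hfd.vadd_of_comm c
    have h9 : (fun x : Fin 4 → ℝ => x + (-c)) ⁻¹' D = c +ᵥ D := by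
      ext x
      rw [Set.mem_vadd_set_iff_neg_vadd_mem]
      simp [add_comm]
    rw [h9]; exact h8
  exact h7.setLIntegral_eq hfd H hinv

theorem linear_inv (G : (Fin 4 → ℝ) → ENNReal) (hm : Measurable G)
    (hp : ∀ (n : Fin 4 → ℤ) x, G (x + fun i => (n i : ℝ)) = G x)
    (L : (Fin 4 → ℝ) → (Fin 4 → ℝ)) (hLm : Measurable L) (hLadd : ∀ p q, L (p + q) = L p + L q)
    (hLs : Function.Surjective L)
    (hLZ : ∀ n : Fin 4 → ℤ, ∃ m : Fin 4 → ℤ, L (fun i => (n i : ℝ)) = fun i => (m i : ℝ)) :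
    ∫⁻ q, G (L q) ∂mu = ∫⁻ p, G p ∂mu := by
  have claim2 : ∀ p, ∫⁻ q, G (L q + p) ∂mu = ∫⁻ q, G (L q) ∂mu := by
    intro p
    obtain ⟨q0, rfl⟩ := hLs p
    simp only [← hLadd]
    apply shift (fun q => G (L q))
    intro n x
    obtain ⟨m, hm'⟩ := hLZ n
    simp only [hLadd, hm', hp]
  have claim1 : ∀ q, ∫⁻ p, G (L q + p) ∂mu = ∫⁻ p, G p ∂mu := by
    intro q
    simp only [add_comm (L q)]
    exact shift G hp (L q)
  calc ∫⁻ q, G (L q) ∂mu
      = ∫⁻ _p : Fin 4 → ℝ, (∫⁻ q, G (L q) ∂mu) ∂mu := by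
        rw [lintegral_const, measure_univ, mul_one]
    _ = ∫⁻ p, ∫⁻ q, G (L q + p) ∂mu ∂mu := by
        simp only [claim2]
    _ = ∫⁻ q, ∫⁻ p, G (L q + p) ∂mu ∂mu := by
        apply lintegral_lintegral_swap
        apply Measurable.aemeasurable
        exact hm.comp ((hLm.comp measurable_snd).add measurable_fst)
    _ = ∫⁻ _q : Fin 4 → ℝ, (∫⁻ p, G p ∂mu) ∂mu := by
        simp only [claim1]
    _ = ∫⁻ p, G p ∂mu := by
        rw [lintegral_const, measure_univ, mul_one]

/-- inverse of `par` -/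
def qar (q : ℍ[ℝ]) : Fin 4 → ℝ :=
  ![q.re - q.imK, q.imI - q.imK, q.imJ - q.imK, 2 * q.imK]

theorem par_qar (q : ℍ[ℝ]) : par (qar q) = q := by
  ext <;> simp [par, qar]

theorem qar_par (x : Fin 4 → ℝ) : qar (par x) = x := by
  funext i
  fin_cases i <;> simp [par, qar]
  ring

theorem qar_add (p q : ℍ[ℝ]) : qar (p + q) = qar p + qar q := by
  funext i
  fin_cases i <;> simp [qar] <;> ring

theorem par_add (x y : Fin 4 → ℝ) : par (x + y) = par x + par y := by
  ext <;> simp [par] <;> ring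

theorem continuous_par : Continuous par := by
  have h : par = fun x => Quaternion.linearIsometryEquivTuple.symm
      (WithLp.toLp 2 ![x 0 + x 3 / 2, x 1 + x 3 / 2, x 2 + x 3 / 2, x 3 / 2]) := by
    funext x
    ext <;> simp [par]
  rw [h]
  apply (LinearIsometryEquiv.continuous _).comp
  apply (PiLp.continuous_toLp 2 _).comp
  apply continuous_pi
  intro i
  fin_cases i <;> simp <;> fun_prop

theorem continuous_qar : Continuous qar := by
  apply continuous_pi
  intro i
  fin_cases i <;> simp [qar]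
  · exact Quaternion.continuous_re.sub Quaternion.continuous_imK
  · exact Quaternion.continuous_imI.sub Quaternion.continuous_imK
  · exact Quaternion.continuous_imJ.sub Quaternion.continuous_imK
  · exact continuous_const.mul Quaternion.continuous_imK

theorem cellInt_mul {R : Subring ℍ[ℝ]} (hτ : IsLat R) {ν : ℍ[ℝ]} (hν : ν ∈ R) (hν0 : ν ≠ 0)
    (F : Pt → ENNReal) (hF : Measurable F)
    (hper : ∀ x ∈ R, ∀ z : ℍ[ℝ], ∀ r : ℝ, 0 < r → F (z + x, r) = F (z, r)) {r : ℝ}
    (hr : 0 < r) : cellInt ν F r = cellInt 1 F r := by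
  set G : (Fin 4 → ℝ) → ENNReal := fun y => F (par y, r) with hG
  have hGm : Measurable G := by
    apply hF.comp
    exact (continuous_par.measurable).prodMk measurable_const
  have hGp : ∀ (n : Fin 4 → ℤ) x, G (x + fun i => (n i : ℝ)) = G x := by
    intro n x
    simp only [hG, par_add]
    exact hper _ ((hτ _).2 ⟨n, rfl⟩) _ r hr
  set L : (Fin 4 → ℝ) → (Fin 4 → ℝ) := fun x => qar (ν * par x) with hL
  have hLm : Measurable L := (continuous_qar.comp (continuous_const.mul continuous_par)).measurable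
  have hLadd : ∀ p q, L (p + q) = L p + L q := by
    intro p q
    simp only [hL, par_add, mul_add, qar_add]
  have hLs : Function.Surjective L := by
    intro p
    refine ⟨qar (ν⁻¹ * par p), ?_⟩
    simp only [hL, par_qar]
    rw [← mul_assoc, mul_inv_cancel₀ hν0, one_mul, qar_par]
  have hLZ : ∀ n : Fin 4 → ℤ, ∃ m : Fin 4 → ℤ, L (fun i => (n i : ℝ)) = fun i => (m i : ℝ) := by
    intro n
    obtain ⟨m, hm⟩ := (hτ _).1 (R.mul_mem hν ((hτ (par fun i => (n i : ℝ))).2 ⟨n, rfl⟩))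
    refine ⟨m, ?_⟩
    simp only [hL]
    rw [hm, qar_par]
  have key := linear_inv G hGm hGp L hLm hLadd hLs hLZ
  simp only [hG, hL, par_qar] at key
  simp only [cellInt, one_mul]
  exact key

end Pool.Agent.Helper79.Ram5M
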